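import Pool.Agent.X127.SW.Red
import Pool.Agent.X127.SW.Arc

/-!
# Bounded local limits are dominated by the arcsine law (MP_6b977f_mp)

Every local weak limit of eigenfunctions as in the problem is the law of a stationary random
field on the plane with smooth samples, `ΔF + F = 0` and `E F(0)² ≤ 1`. The theorem is about all
such fields, in every dimension.
-/

set_option autoImplicit false
open MeasureTheory Filter Topology
open scoped ContDiff ENNReal

namespace Pool.Agent.Results.MP_6b977f_mp.BoundedWaves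

noncomputable section

/-- the Laplacian `∑ ∂_i²` of `ℝ^d` -/
def laplacian {d : ℕ} (f : EuclideanSpace ℝ (Fin d) → ℝ) (y : EuclideanSpace ℝ (Fin d)) : ℝ :=
  ∑ i, fderiv ℝ (fun z => fderiv ℝ f z (EuclideanSpace.single i 1)) y (EuclideanSpace.single i 1)

/-- `F` is a stationary random field on `ℝ^d` with smooth samples, `ΔF + F = 0` and `E F(0)² < ∞`.
Stationary means: the shifted field has the same law, in the product of copies of `ℝ` indexed by
the points of `ℝ^d`. -/
structure IsStationaryWave {d : ℕ} {S : Type*} [MeasurableSpace S] (P : Measure S)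
    (F : S → EuclideanSpace ℝ (Fin d) → ℝ) : Prop where
  prob : IsProbabilityMeasure P
  measurable : ∀ y, Measurable fun s => F s y
  smooth : ∀ s, ContDiff ℝ ∞ (F s)
  eigen : ∀ s y, laplacian (F s) y + F s y = 0
  stationary : ∀ x : EuclideanSpace ℝ (Fin d),
    P.map (fun s y => F s (y + x)) = P.map (fun s y => F s y)
  moment : Integrable (fun s => F s 0 ^ 2) P

open Pool.Agent.X127.SW Pool.Agent.Y139.SW

/-- **Bounded stationary waves are dominated by the random plane wave.** If `|F(0)| ≤ M` almost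
surely then almost surely `F(0)² + (∂_v F(0))² ≤ M²` for all unit vectors `v`, and
`E (F(0) - a)⁺ ≤ E (M cos U - a)⁺` for every real `a`, where `U` is uniform on `[0, π]`; in
particular `E F(0)² ≤ M²/2` and `E |F(0)| ≤ 2M/π`. -/
theorem result {d : ℕ} {S : Type*} [MeasurableSpace S] (P : Measure S)
    (F : S → EuclideanSpace ℝ (Fin d) → ℝ) (hF : IsStationaryWave P F) (M : ℝ)
    (hM : ∀ᵐ s ∂P, |F s 0| ≤ M) :
    (∀ᵐ s ∂P, ∀ v : EuclideanSpace ℝ (Fin d), ‖v‖ = 1 →
      F s 0 ^ 2 + fderiv ℝ (F s) 0 v ^ 2 ≤ M ^ 2) ∧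
    (∀ a : ℝ, ∫ s, max (F s 0 - a) 0 ∂P ≤
      1 / Real.pi * ∫ x in (0 : ℝ)..Real.pi, max (M * Real.cos x - a) 0) ∧
    ∫ s, F s 0 ^ 2 ∂P ≤ M ^ 2 / 2 ∧
    ∫ s, |F s 0| ∂P ≤ 2 * M / Real.pi := by
  have := hF.prob
  obtain ⟨Ψ, mΨ, v1, hQ, hτ, W⟩ := red (P := P) hF.measurable hF.smooth hF.eigen
    hF.stationary hF.moment
  have m0 : Measurable fun f : Sp d => f.1 0 := W.sf.meas 0
  have hM' : ∀ᵐ f ∂(P.map Ψ), |f.1 0| ≤ M := by
    have ms : MeasurableSet {f : Sp d | |f.1 0| ≤ M} :=
      measurableSet_le (continuous_abs.measurable.comp m0) measurable_const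
    rw [ae_map_iff mΨ.aemeasurable ms]
    simp only [v1]
    exact hM
  have tr : ∀ k : ℝ → ℝ, Continuous k → ∫ f, k (f.1 0) ∂(P.map Ψ) = ∫ s, k (F s 0) ∂P := by
    intro k hk
    have mk : AEStronglyMeasurable (fun f : Sp d => k (f.1 0)) (P.map Ψ) :=
      (hk.measurable.comp m0).aestronglyMeasurable
    rw [integral_map mΨ.aemeasurable mk]
    simp only [v1]
  have g := grad hτ W hM'
  have A : ∀ a : ℝ, ∫ s, max (F s 0 - a) 0 ∂P ≤
      1 / Real.pi * ∫ x in (0 : ℝ)..Real.pi, max (M * Real.cos x - a) 0 := by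
    intro a
    have h := arcsine hτ W hM' a
    rw [tr (fun x => max (x - a) 0) (by fun_prop)] at h
    exact h
  obtain ⟨s0, hs0⟩ := hM.exists
  have M0 : 0 ≤ M := (abs_nonneg _).trans hs0
  have iF : Integrable (fun s => F s 0) P := l2_l1 (hF.measurable 0) hF.moment
  refine ⟨?_, A, ?_, ?_⟩
  · have mD : ∀ i, Measurable fun f : Sp d => D i f.1 0 := fun i => (W.der hτ i).sf.meas 0
    have ms : MeasurableSet {f : Sp d | f.1 0 ^ 2 + ∑ i, D i f.1 0 ^ 2 ≤ M ^ 2} :=
      measurableSet_le ((m0.pow_const 2).add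
        (Finset.measurable_fun_sum Finset.univ fun i _ => (mD i).pow_const 2)) measurable_const
    rw [ae_map_iff mΨ.aemeasurable ms] at g
    filter_upwards [g] with s hs v hv
    have hs' : F s 0 ^ 2 + ∑ i, D i (F s) 0 ^ 2 ≤ M ^ 2 := by
      have h1 := hs
      simp only [v1] at h1
      exact h1
    have h2 : fderiv ℝ (F s) 0 v ^ 2 ≤ ∑ i, D i (F s) 0 ^ 2 := by
      have h3 : fderiv ℝ (F s) 0 v = ∑ i, v i * D i (F s) 0 := dv_eq _ _ _
      rw [h3]
      have h4 := cs (v := v) fun i => D i (F s) 0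
      rw [hv, one_pow, one_mul] at h4
      exact h4
    linarith
  · have h := half hτ W hM'
    rw [tr (fun x => x ^ 2) (by fun_prop)] at h
    exact h
  · have h := A 0
    simp only [sub_zero] at h
    have e1 : ∫ x in (0 : ℝ)..Real.pi, max (M * Real.cos x) 0 = M := by
      rcases M0.eq_or_lt with h0 | h0
      · rw [← h0]; simp
      · have h2 := int_val (R := M) (a := 0) h0 ⟨by linarith, h0⟩
        simp only [sub_zero] at h2
        have e : cc M 0 = M / Real.pi := by
          unfold cc hu th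
          rw [zero_div, Real.arccos_zero, Real.sin_pi_div_two]
          ring
        rw [e] at h2
        have pp := Real.pi_pos.ne'
        field_simp at h2
        exact h2
    rw [e1] at h
    have mean : ∫ s, F s 0 ∂P = 0 := by
      have h2 := W.mean hτ
      rw [tr (fun x => x) continuous_id] at h2
      exact h2
    have iM : Integrable (fun s => max (F s 0) 0) P := iF.sup (integrable_const 0)
    have e2 : ∫ s, |F s 0| ∂P = 2 * ∫ s, max (F s 0) 0 ∂P := by
      have e3 : ∀ s, |F s 0| = 2 * max (F s 0) 0 - F s 0 := by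
        intro s
        rcases le_total 0 (F s 0) with h1 | h1
        · rw [abs_of_nonneg h1, max_eq_left h1]; ring
        · rw [abs_of_nonpos h1, max_eq_right h1]; ring
      simp only [e3]
      rw [integral_sub (iM.const_mul 2) iF, integral_const_mul, mean, sub_zero]
    rw [e2]
    calc 2 * ∫ s, max (F s 0) 0 ∂P ≤ 2 * (1 / Real.pi * M) := by linarith
      _ = 2 * M / Real.pi := by ring

end

end Pool.Agent.Results.MP_6b977f_mp.BoundedWaves
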