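import Pool.Agent.X127.PB.Ab
import Pool.Agent.Results.MP_6b977f_mp.ValueDistribution

/-!
# The values and the gradients of the eigenfunctions of planar domains (MP_6b977f_mp)

`Ω ⊆ ℂ` is an open set, `u` is a real function with `Δu + λu = 0` in `Ω`; no boundary condition and
no regularity of the boundary is used in the first part. `lapl f = ∂x² f + ∂y² f` is the definition
of the file `AbsoluteContinuity` of MP_a52643_an. The norm of `fderiv ℝ u z` is the length of the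
gradient of `u` at `z`.
-/

set_option autoImplicit false
open MeasureTheory Filter Topology
open scoped ContDiff ENNReal

namespace Pool.Agent.Results.MP_6b977f_mp.GradientLaw

noncomputable section

open Pool.Agent.Results.MP_a52643_an.AbsoluteContinuity (lapl)
open Pool.Agent.X127.PB

/-- the points of `Ω` whose closed disc of radius `1.84 / √λ` lies in `Ω` -/
def interiorPart (Ω : Set ℂ) (lam : ℝ) : Set ℂ :=
  {z | Metric.closedBall z (184 / 100 / √lam) ⊆ Ω}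

/-- the length of the gradient, in units of the wavelength -/
def grad (lam : ℝ) (u : ℂ → ℝ) (z : ℂ) : ℝ := ‖fderiv ℝ u z‖ / √lam

/-- `ν` is the weak limit, along a subsequence, of the joint laws of `u n` and of its rescaled
gradient length, at a uniform random point of `Ω` -/
def IsJointWeakLimit (Ω : Set ℂ) (lam : ℕ → ℝ) (u : ℕ → ℂ → ℝ) (ν : Measure (ℝ × ℝ)) : Prop :=
  ∃ σ : ℕ → ℕ, StrictMono σ ∧ ∀ g : ℝ × ℝ → ℝ, Continuous g → (∃ M, ∀ x, |g x| ≤ M) →
    Tendsto (fun n => (∫ z in Ω, g (u (σ n) z, grad (lam (σ n)) (u (σ n)) z)) /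
      (volume Ω).toReal) atTop (𝓝 (∫ x, g x ∂ν))

/-- **The laws of the value and of the gradient of an eigenfunction dominate each other.**
(1) For every solution of `Δu + λu = 0`, `λ > 0`, in an open set `Ω` of the plane and every even
convex `Φ ≥ 0`, the integral of `Φ(0.58 u)` over the interior part of `Ω` is at most the integral
of `Φ(|∇u|/√λ)` over `Ω`, and the integral of `Φ(0.58 |∇u|/√λ)` over the interior part is at most
the integral of `Φ(u)` over `Ω`. (2) The same inequalities hold for all weak limits of the joint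
laws, as `λ → ∞`, on a domain of finite area, if `∫ u² = |Ω|` and `∫ |∇u|² = λ |Ω|`. -/
theorem result :
    (∀ (Ω : Set ℂ) (lam : ℝ) (u : ℂ → ℝ), IsOpen Ω → 0 < lam → ContDiffOn ℝ ∞ u Ω →
      (∀ z ∈ Ω, lapl u z + lam * u z = 0) → ∀ Φ : ℝ → ℝ, ConvexOn ℝ Set.univ Φ →
      (∀ x, Φ (-x) = Φ x) → (∀ x, 0 ≤ Φ x) →
        ∫⁻ z in interiorPart Ω lam, ENNReal.ofReal (Φ (58 / 100 * u z)) ≤
            ∫⁻ z in Ω, ENNReal.ofReal (Φ (grad lam u z)) ∧
        ∫⁻ z in interiorPart Ω lam, ENNReal.ofReal (Φ (58 / 100 * grad lam u z)) ≤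
            ∫⁻ z in Ω, ENNReal.ofReal (Φ (u z))) ∧
    ∀ (Ω : Set ℂ) (lam : ℕ → ℝ) (u : ℕ → ℂ → ℝ), IsOpen Ω → Ω.Nonempty → volume Ω ≠ ⊤ →
      Tendsto lam atTop atTop → (∀ n, ContDiffOn ℝ ∞ (u n) Ω) →
      (∀ n, ∀ z ∈ Ω, lapl (u n) z + lam n * u n z = 0) →
      (∀ n, IntegrableOn (fun z => u n z ^ 2) Ω volume) →
      (∀ n, ∫ z in Ω, u n z ^ 2 = (volume Ω).toReal) →
      (∀ n, IntegrableOn (fun z => ‖fderiv ℝ (u n) z‖ ^ 2) Ω volume) →
      (∀ n, ∫ z in Ω, ‖fderiv ℝ (u n) z‖ ^ 2 = lam n * (volume Ω).toReal) →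
      ∀ ν : Measure (ℝ × ℝ), IsProbabilityMeasure ν → IsJointWeakLimit Ω lam u ν →
      ∀ Φ : ℝ → ℝ, ConvexOn ℝ Set.univ Φ → (∀ x, Φ (-x) = Φ x) → (∀ x, 0 ≤ Φ x) →
        ∫⁻ p, ENNReal.ofReal (Φ (58 / 100 * p.1)) ∂ν ≤ ∫⁻ p, ENNReal.ofReal (Φ p.2) ∂ν ∧
        ∫⁻ p, ENNReal.ofReal (Φ (58 / 100 * p.2)) ∂ν ≤ ∫⁻ p, ENNReal.ofReal (Φ p.1) ∂ν := by
  have P1 : ∀ (Ω : Set ℂ) (lam : ℝ) (u : ℂ → ℝ), IsOpen Ω → 0 < lam → ContDiffOn ℝ ∞ u Ω →
      (∀ z ∈ Ω, lapl u z + lam * u z = 0) → ∀ Φ : ℝ → ℝ, ConvexOn ℝ Set.univ Φ →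
      (∀ x, Φ (-x) = Φ x) → (∀ x, 0 ≤ Φ x) →
        ∫⁻ z in interiorPart Ω lam, ENNReal.ofReal (Φ (58 / 100 * u z)) ≤
            ∫⁻ z in Ω, ENNReal.ofReal (Φ (grad lam u z)) ∧
        ∫⁻ z in interiorPart Ω lam, ENNReal.ofReal (Φ (58 / 100 * grad lam u z)) ≤
            ∫⁻ z in Ω, ENNReal.ofReal (Φ (u z)) := fun Ω lam u hΩ hl su he Φ cΦ ev Φ0 =>
    ⟨grad1 hΩ hl su he cΦ ev Φ0, grad2 hΩ hl su he cΦ ev Φ0⟩
  refine ⟨P1, fun Ω lam u hΩ hne hfin hl su he hi hn hi' hn' ν hν hw Φ cΦ ev Φ0 => ?_⟩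
  obtain ⟨σ, hσ, hg⟩ := hw
  have V0 : 0 < (volume Ω).toReal :=
    ENNReal.toReal_pos (hΩ.measure_pos volume hne).ne' hfin
  obtain ⟨m, hm⟩ : ∃ m : Measure ℂ, m = volume.restrict Ω := ⟨_, rfl⟩
  have mu : m Set.univ = volume Ω := by rw [hm, Measure.restrict_apply_univ]
  have fm : IsFiniteMeasure m := ⟨by rw [mu]; exact lt_top_iff_ne_top.2 hfin⟩
  have lσ : Tendsto (fun n => lam (σ n)) atTop atTop := hl.comp hσ.tendsto_atTop
  have lp0 : ∀ᶠ n in atTop, 0 < lam (σ n) := lσ.eventually_gt_atTop 0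
  have mu1 : ∀ n, AEStronglyMeasurable (u n) m := fun n => by
    rw [hm]
    exact (su n).continuousOn.aestronglyMeasurable hΩ.measurableSet
  have mu2 : ∀ n, AEStronglyMeasurable (grad (lam n) (u n)) m := fun n => by
    rw [hm]
    exact ((((su n).continuousOn_fderiv_of_isOpen hΩ (by simp)).norm).div_const
      _).aestronglyMeasurable hΩ.measurableSet
  -- the sets
  obtain ⟨ρ, hρ⟩ : ∃ ρ : ℕ → ℝ, ρ = fun n => 184 / 100 / √(max (lam (σ n)) 1) := ⟨_, rfl⟩
  have ρ0 : ∀ n, 0 < ρ n := fun n => by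
    rw [hρ]
    have : 0 < √(max (lam (σ n)) 1) := Real.sqrt_pos.2 (lt_max_of_lt_right one_pos)
    positivity
  have ρl : Tendsto ρ atTop (𝓝 0) := by
    rw [hρ]
    refine Tendsto.div_atTop tendsto_const_nhds (Real.tendsto_sqrt_atTop.comp ?_)
    exact tendsto_atTop_mono (fun n => le_max_left _ _) lσ
  have sh := shrink hΩ hfin ρ0 ρl
  obtain ⟨K, hK⟩ : ∃ K : ℕ → Set ℂ, K = fun n => {z | Metric.closedBall z (ρ n) ⊆ Ω} := ⟨_, rfl⟩
  have mK : ∀ n, MeasurableSet (K n) := fun n => by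
    rw [hK]; exact (inner_open hΩ (ρ0 n)).measurableSet
  have KΩ : ∀ n, K n ⊆ Ω := fun n z hz => by
    rw [hK] at hz
    exact hz (Metric.mem_closedBall_self (ρ0 n).le)
  have sh' : Tendsto (fun n => m (K n)ᶜ) atTop (𝓝 0) := by
    refine sh.congr fun n => ?_
    rw [hm, Measure.restrict_apply (mK n).compl, Set.inter_comm, ← Set.diff_eq, hK]
  have eK : ∀ᶠ n in atTop, K n = interiorPart Ω (lam (σ n)) := by
    filter_upwards [lσ.eventually_ge_atTop 1] with n hn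
    rw [hK, hρ]
    show {z | Metric.closedBall z (184 / 100 / √(max (lam (σ n)) 1)) ⊆ Ω} = _
    rw [max_eq_left hn]
    rfl
  have rK : ∀ n, m.restrict (K n) = volume.restrict (K n) := fun n => by
    rw [hm, Measure.restrict_restrict (mK n), Set.inter_eq_left.2 (KΩ n)]
  -- the square integrals
  have hsq : ∀ n, 0 < lam n → ∀ z, grad (lam n) (u n) z ^ 2 =
      ‖fderiv ℝ (u n) z‖ ^ 2 * (lam n)⁻¹ := fun n h z => by
    unfold grad
    rw [div_pow, Real.sq_sqrt h.le, div_eq_mul_inv]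
  have H1 : Ab m (fun n => u (σ n)) (fun n => grad (lam (σ n)) (u (σ n))) K 1 := by
    refine ⟨by rw [mu]; exact V0, fun n => mu1 _, fun n => mu2 _, ?_, ?_, mK, sh'⟩
    · filter_upwards [lp0] with n hn
      simp only [hsq _ hn]
      rw [hm]
      exact (hi' _).mul_const _
    · filter_upwards [lp0] with n hn
      simp only [hsq _ hn]
      rw [integral_mul_const, mu, hm, hn' (σ n), one_mul]
      have := hn.ne'
      field_simp
      exact le_rfl
  have H2 : Ab m (fun n => grad (lam (σ n)) (u (σ n))) (fun n => u (σ n)) K 1 := by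
    refine ⟨by rw [mu]; exact V0, fun n => mu2 _, fun n => mu1 _, ?_, ?_, mK, sh'⟩
    · exact Eventually.of_forall fun n => by rw [hm]; exact hi _
    · exact Eventually.of_forall fun n => by rw [hm, hn (σ n), ← hm, mu, one_mul]
  -- the marginals
  obtain ⟨μ, hμ⟩ : ∃ μ : Measure ℝ, μ = ν.map Prod.fst := ⟨_, rfl⟩
  obtain ⟨κ, hκ⟩ : ∃ κ : Measure ℝ, κ = ν.map Prod.snd := ⟨_, rfl⟩
  have pμ : IsProbabilityMeasure μ := by
    rw [hμ]; exact Measure.isProbabilityMeasure_map measurable_fst.aemeasurable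
  have pκ : IsProbabilityMeasure κ := by
    rw [hκ]; exact Measure.isProbabilityMeasure_map measurable_snd.aemeasurable
  have w1 : ∀ g : ℝ → ℝ, Continuous g → (∃ M, ∀ x, |g x| ≤ M) →
      Tendsto (fun n => (∫ z, g (u (σ n) z) ∂m) / (m Set.univ).toReal) atTop
        (𝓝 (∫ x, g x ∂μ)) := by
    intro g cg ⟨M, hM⟩
    have := hg (fun p => g p.1) (cg.comp continuous_fst) ⟨M, fun p => hM _⟩
    rw [hμ, integral_map measurable_fst.aemeasurable cg.aestronglyMeasurable, mu, hm]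
    exact this
  have w2 : ∀ g : ℝ → ℝ, Continuous g → (∃ M, ∀ x, |g x| ≤ M) →
      Tendsto (fun n => (∫ z, g (grad (lam (σ n)) (u (σ n)) z) ∂m) / (m Set.univ).toReal) atTop
        (𝓝 (∫ x, g x ∂κ)) := by
    intro g cg ⟨M, hM⟩
    have := hg (fun p => g p.2) (cg.comp continuous_snd) ⟨M, fun p => hM _⟩
    rw [hκ, integral_map measurable_snd.aemeasurable cg.aestronglyMeasurable, mu, hm]
    exact this
  have cc := Pool.Agent.X127.SW.conv_cont cΦ
  have c1 : Measurable fun x : ℝ => ENNReal.ofReal (Φ x) := cc.measurable.ennreal_ofReal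
  have c2 : Measurable fun x : ℝ => ENNReal.ofReal (Φ (58 / 100 * x)) :=
    (cc.measurable.comp (measurable_const.mul measurable_id)).ennreal_ofReal
  constructor
  · have h := ab_even (c := 58 / 100) H1 zero_le_one w1 w2 (fun Ψ cΨ eΨ Ψ0 => by
      filter_upwards [lp0, eK] with n h1 h2
      rw [rK, h2, hm]
      exact (P1 Ω (lam (σ n)) (u (σ n)) hΩ h1 (su _) (he _) Ψ cΨ eΨ Ψ0).1) cΦ ev Φ0
    rw [hμ, hκ, lintegral_map c2 measurable_fst, lintegral_map c1 measurable_snd] at h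
    exact h
  · have h := ab_even (c := 58 / 100) H2 zero_le_one w2 w1 (fun Ψ cΨ eΨ Ψ0 => by
      filter_upwards [lp0, eK] with n h1 h2
      rw [rK, h2, hm]
      exact (P1 Ω (lam (σ n)) (u (σ n)) hΩ h1 (su _) (he _) Ψ cΨ eΨ Ψ0).2) cΦ ev Φ0
    rw [hμ, hκ, lintegral_map c2 measurable_snd, lintegral_map c1 measurable_fst] at h
    exact h

end

end Pool.Agent.Results.MP_6b977f_mp.GradientLaw
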