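import Pool.Agent.X127.PB.Ab
import Pool.Agent.X127.PB.Mx3
import Pool.Agent.Results.MP_6b977f_mp.ValueDistribution

/-!
# Local maxima of the eigenfunctions of planar domains (MP_6b977f_mp)

`Ω ⊆ ℂ` is an open set, `u` is a real function with `Δu + λu = 0` in `Ω`; no boundary condition and
no regularity of the boundary is used. `lapl f = ∂x² f + ∂y² f` is the definition of the file
`AbsoluteContinuity` of MP_a52643_an.
-/

set_option autoImplicit false
open MeasureTheory Filter Topology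
open scoped ContDiff ENNReal

namespace Pool.Agent.Results.MP_6b977f_mp.LocalMaxima

noncomputable section

open Pool.Agent.Results.MP_a52643_an.AbsoluteContinuity (lapl)
open Pool.Agent.X127.PB

/-- the points of `Ω` whose closed disc of radius `3 / √λ` lies in `Ω` -/
def interiorPart (Ω : Set ℂ) (lam : ℝ) : Set ℂ :=
  {z | Metric.closedBall z (3 / √lam) ⊆ Ω}

/-- the maximum of `|u|` over the closed disc of centre `z` and radius `1 / √λ` -/
def localMax (lam : ℝ) (u : ℂ → ℝ) (z : ℂ) : ℝ :=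
  sSup ((fun y => |u (z + y)|) '' Metric.closedBall (0 : ℂ) (1 / √lam))

/-- `ν` is the weak limit, along a subsequence, of the joint laws of `u n` and of its local maximum
at a uniform random point of the interior part of `Ω` -/
def IsJointWeakLimit (Ω : Set ℂ) (lam : ℕ → ℝ) (u : ℕ → ℂ → ℝ) (ν : Measure (ℝ × ℝ)) : Prop :=
  ∃ σ : ℕ → ℕ, StrictMono σ ∧ ∀ g : ℝ × ℝ → ℝ, Continuous g → (∃ M, ∀ x, |g x| ≤ M) →
    Tendsto (fun n => (∫ z in interiorPart Ω (lam (σ n)),
      g (u (σ n) z, localMax (lam (σ n)) (u (σ n)) z)) / (volume Ω).toReal) atTop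
      (𝓝 (∫ x, g x ∂ν))

/-- **The local maxima of an eigenfunction are dominated in law by its values.**
(1) For every solution of `Δu + λu = 0`, `λ > 0`, in an open set `Ω` of the plane and every even
convex `Φ ≥ 0`, the integral over the interior part of `Ω` of `Φ(m / 4)`, `m(z)` the maximum of
`|u|` over the disc of centre `z` and radius `1/√λ`, is at most the integral of `Φ(u)` over `Ω`.
(2) The same inequality holds for all weak limits of the joint laws, as `λ → ∞`, on a domain of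
finite area. -/
theorem result :
    (∀ (Ω : Set ℂ) (lam : ℝ) (u : ℂ → ℝ), IsOpen Ω → 0 < lam → ContDiffOn ℝ ∞ u Ω →
      (∀ z ∈ Ω, lapl u z + lam * u z = 0) → ∀ Φ : ℝ → ℝ, ConvexOn ℝ Set.univ Φ →
      (∀ x, Φ (-x) = Φ x) → (∀ x, 0 ≤ Φ x) →
        ∫⁻ z in interiorPart Ω lam, ENNReal.ofReal (Φ (localMax lam u z / 4)) ≤
            ∫⁻ z in Ω, ENNReal.ofReal (Φ (u z))) ∧
    ∀ (Ω : Set ℂ) (lam : ℕ → ℝ) (u : ℕ → ℂ → ℝ), IsOpen Ω → Ω.Nonempty → volume Ω ≠ ⊤ →
      Tendsto lam atTop atTop → (∀ n, ContDiffOn ℝ ∞ (u n) Ω) →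
      (∀ n, ∀ z ∈ Ω, lapl (u n) z + lam n * u n z = 0) →
      (∀ n, IntegrableOn (fun z => u n z ^ 2) Ω volume) →
      (∀ n, ∫ z in Ω, u n z ^ 2 = (volume Ω).toReal) →
      ∀ ν : Measure (ℝ × ℝ), IsProbabilityMeasure ν → IsJointWeakLimit Ω lam u ν →
      ∀ Φ : ℝ → ℝ, ConvexOn ℝ Set.univ Φ → (∀ x, Φ (-x) = Φ x) → (∀ x, 0 ≤ Φ x) →
        ∫⁻ p, ENNReal.ofReal (Φ (p.2 / 4)) ∂ν ≤ ∫⁻ p, ENNReal.ofReal (Φ p.1) ∂ν := by
  have P1 : ∀ (Ω : Set ℂ) (lam : ℝ) (u : ℂ → ℝ), IsOpen Ω → 0 < lam → ContDiffOn ℝ ∞ u Ω →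
      (∀ z ∈ Ω, lapl u z + lam * u z = 0) → ∀ Φ : ℝ → ℝ, ConvexOn ℝ Set.univ Φ →
      (∀ x, Φ (-x) = Φ x) → (∀ x, 0 ≤ Φ x) →
        ∫⁻ z in interiorPart Ω lam, ENNReal.ofReal (Φ (localMax lam u z / 4)) ≤
            ∫⁻ z in Ω, ENNReal.ofReal (Φ (u z)) := fun Ω lam u hΩ hl su he Φ cΦ ev Φ0 =>
    maxi hΩ hl su he cΦ ev Φ0
  refine ⟨P1, fun Ω lam u hΩ hne hfin hl su he hi hn ν hν hw Φ cΦ ev Φ0 => ?_⟩
  obtain ⟨σ, hσ, hg⟩ := hw
  have V0 : 0 < (volume Ω).toReal :=
    ENNReal.toReal_pos (hΩ.measure_pos volume hne).ne' hfin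
  obtain ⟨m, hm⟩ : ∃ m : Measure ℂ, m = volume.restrict Ω := ⟨_, rfl⟩
  have mu : m Set.univ = volume Ω := by rw [hm, Measure.restrict_apply_univ]
  have fm : IsFiniteMeasure m := ⟨by rw [mu]; exact lt_top_iff_ne_top.2 hfin⟩
  have lσ : Tendsto (fun n => lam (σ n)) atTop atTop := hl.comp hσ.tendsto_atTop
  have lp0 : ∀ᶠ n in atTop, 1 ≤ lam (σ n) := lσ.eventually_ge_atTop 1
  have mu1 : ∀ n, AEStronglyMeasurable (u n) m := fun n => by
    rw [hm]
    exact (su n).continuousOn.aestronglyMeasurable hΩ.measurableSet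
  -- the sets
  obtain ⟨l, hlm⟩ : ∃ l : ℕ → ℝ, l = fun n => max (lam (σ n)) 1 := ⟨_, rfl⟩
  have l1 : ∀ n, 0 < l n := fun n => by rw [hlm]; exact lt_max_of_lt_right one_pos
  have el : ∀ᶠ n in atTop, l n = lam (σ n) := by
    filter_upwards [lp0] with n hn
    rw [hlm]
    exact max_eq_left hn
  obtain ⟨ρ, hρ⟩ : ∃ ρ : ℕ → ℝ, ρ = fun n => 3 / √(l n) := ⟨_, rfl⟩
  have ρ0 : ∀ n, 0 < ρ n := fun n => by
    rw [hρ]
    have : 0 < √(l n) := Real.sqrt_pos.2 (l1 n)
    positivity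
  have ρl : Tendsto ρ atTop (𝓝 0) := by
    rw [hρ]
    refine Tendsto.div_atTop tendsto_const_nhds (Real.tendsto_sqrt_atTop.comp ?_)
    rw [hlm]
    exact tendsto_atTop_mono (fun n => le_max_left _ _) lσ
  have sh := shrink hΩ hfin ρ0 ρl
  obtain ⟨K, hK⟩ : ∃ K : ℕ → Set ℂ, K = fun n => {z | Metric.closedBall z (ρ n) ⊆ Ω} := ⟨_, rfl⟩
  have mK : ∀ n, MeasurableSet (K n) := fun n => by
    rw [hK]; exact (inner_open hΩ (ρ0 n)).measurableSet
  have KΩ : ∀ n, K n ⊆ Ω := fun n z hz => by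
    rw [hK] at hz
    exact hz (Metric.mem_closedBall_self (ρ0 n).le)
  have sh' : Tendsto (fun n => m (K n)ᶜ) atTop (𝓝 0) := by
    refine sh.congr fun n => ?_
    rw [hm, Measure.restrict_apply (mK n).compl, Set.inter_comm, ← Set.diff_eq, hK]
  have eK : ∀ᶠ n in atTop, K n = interiorPart Ω (lam (σ n)) := by
    filter_upwards [el] with n hn
    rw [hK, hρ]
    show {z | Metric.closedBall z (3 / √(l n)) ⊆ Ω} = _
    rw [hn]
    rfl
  have rK : ∀ n, m.restrict (K n) = volume.restrict (K n) := fun n => by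
    rw [hm, Measure.restrict_restrict (mK n), Set.inter_eq_left.2 (KΩ n)]
  -- the local maximum
  obtain ⟨a, ha⟩ : ∃ a : ℕ → ℂ → ℝ, a = fun n => (K n).indicator (lmax (l n) (u (σ n))) :=
    ⟨_, rfl⟩
  have ma : ∀ n, AEStronglyMeasurable (a n) m := fun n => by
    rw [ha]
    show AEStronglyMeasurable ((K n).indicator (lmax (l n) (u (σ n)))) m
    rw [aestronglyMeasurable_indicator_iff (mK n), rK]
    refine ContinuousOn.aestronglyMeasurable ?_ (mK n)
    rw [hK, hρ]
    exact lmax_cont (l1 n) (su _)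
  have H : Ab m a (fun n => u (σ n)) K 1 := by
    refine ⟨by rw [mu]; exact V0, ma, fun n => mu1 _, ?_, ?_, mK, sh'⟩
    · exact Eventually.of_forall fun n => by rw [hm]; exact hi _
    · exact Eventually.of_forall fun n => by rw [hm, hn (σ n), ← hm, mu, one_mul]
  -- the marginals
  obtain ⟨μ, hμ⟩ : ∃ μ : Measure ℝ, μ = ν.map Prod.fst := ⟨_, rfl⟩
  obtain ⟨κ, hκ⟩ : ∃ κ : Measure ℝ, κ = ν.map Prod.snd := ⟨_, rfl⟩
  have pμ : IsProbabilityMeasure μ := by
    rw [hμ]; exact Measure.isProbabilityMeasure_map measurable_fst.aemeasurable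
  have pκ : IsProbabilityMeasure κ := by
    rw [hκ]; exact Measure.isProbabilityMeasure_map measurable_snd.aemeasurable
  -- the complement is negligible
  have neg : ∀ (g : ℝ → ℝ), Continuous g → (∃ M, ∀ x, |g x| ≤ M) → ∀ f : ℕ → ℂ → ℝ,
      (∀ n, AEStronglyMeasurable (f n) m) → ∀ L : ℝ,
      Tendsto (fun n => (∫ z in K n, g (f n z) ∂m) / (m Set.univ).toReal) atTop (𝓝 L) →
      Tendsto (fun n => (∫ z, g (f n z) ∂m) / (m Set.univ).toReal) atTop (𝓝 L) := by
    intro g cg ⟨M, hM⟩ f mf L hL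
    have M0 : 0 ≤ M := (abs_nonneg _).trans (hM 0)
    have ig : ∀ n, Integrable (fun z => g (f n z)) m := fun n =>
      Integrable.of_bound (C := M) (cg.comp_aestronglyMeasurable (mf n)) (ae_of_all _ fun z => hM _)
    have t1 : Tendsto (fun n => (∫ z in (K n)ᶜ, g (f n z) ∂m) / (m Set.univ).toReal) atTop
        (𝓝 0) := by
      have t2 : Tendsto (fun n => M * (m (K n)ᶜ).toReal / (m Set.univ).toReal) atTop (𝓝 0) := by
        have t3 := (ENNReal.tendsto_toReal ENNReal.zero_ne_top).comp sh'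
        have t4 := (t3.const_mul M).div_const (m Set.univ).toReal
        simpa using t4
      refine squeeze_zero_norm (fun n => ?_) t2
      rw [norm_div, Real.norm_of_nonneg ENNReal.toReal_nonneg]
      gcongr
      have := norm_setIntegral_le_of_norm_le_const (μ := m) (s := (K n)ᶜ) (C := M)
        (f := fun z => g (f n z)) (measure_lt_top _ _) (fun z _ => hM _)
      exact this
    have := hL.add t1
    rw [add_zero] at this
    refine this.congr fun n => ?_
    rw [← add_div, integral_add_compl (mK n) (ig n)]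
  have w1 : ∀ g : ℝ → ℝ, Continuous g → (∃ M, ∀ x, |g x| ≤ M) →
      Tendsto (fun n => (∫ z, g (u (σ n) z) ∂m) / (m Set.univ).toReal) atTop
        (𝓝 (∫ x, g x ∂μ)) := by
    intro g cg hb
    refine neg g cg hb (fun n => u (σ n)) (fun n => mu1 _) _ ?_
    obtain ⟨M, hM⟩ := hb
    have := hg (fun p => g p.1) (cg.comp continuous_fst) ⟨M, fun p => hM _⟩
    rw [hμ, integral_map measurable_fst.aemeasurable cg.aestronglyMeasurable]
    refine this.congr' ?_
    filter_upwards [eK] with n h2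
    rw [rK, mu, h2]
  have w2 : ∀ g : ℝ → ℝ, Continuous g → (∃ M, ∀ x, |g x| ≤ M) →
      Tendsto (fun n => (∫ z, g (a n z) ∂m) / (m Set.univ).toReal) atTop
        (𝓝 (∫ x, g x ∂κ)) := by
    intro g cg hb
    refine neg g cg hb a ma _ ?_
    obtain ⟨M, hM⟩ := hb
    have := hg (fun p => g p.2) (cg.comp continuous_snd) ⟨M, fun p => hM _⟩
    rw [hκ, integral_map measurable_snd.aemeasurable cg.aestronglyMeasurable]
    refine this.congr' ?_
    filter_upwards [eK, el] with n h2 h3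
    rw [rK, mu, ← h2]
    congr 1
    refine setIntegral_congr_fun (mK n) fun z hz => ?_
    show g (localMax (lam (σ n)) (u (σ n)) z) = g (a n z)
    rw [ha]
    show g (localMax (lam (σ n)) (u (σ n)) z) = g ((K n).indicator (lmax (l n) (u (σ n))) z)
    rw [Set.indicator_of_mem hz, h3]
    rfl
  have cc := Pool.Agent.X127.SW.conv_cont cΦ
  have c1 : Measurable fun x : ℝ => ENNReal.ofReal (Φ x) := cc.measurable.ennreal_ofReal
  have c2 : Measurable fun x : ℝ => ENNReal.ofReal (Φ (1 / 4 * x)) :=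
    (cc.measurable.comp (measurable_const.mul measurable_id)).ennreal_ofReal
  have h := ab_even (c := 1 / 4) H zero_le_one w2 w1 (fun Ψ cΨ eΨ Ψ0 => by
    filter_upwards [lp0, eK, el] with n h1 h2 h3
    have h4 := P1 Ω (lam (σ n)) (u (σ n)) hΩ (lt_of_lt_of_le one_pos h1) (su _) (he _) Ψ cΨ eΨ Ψ0
    rw [rK]
    rw [← h2] at h4
    rw [hm]
    refine le_trans (le_of_eq ?_) h4
    refine setLIntegral_congr_fun (mK n) fun z hz => ?_
    show ENNReal.ofReal (Ψ (1 / 4 * a n z)) = _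
    rw [ha]
    show ENNReal.ofReal (Ψ (1 / 4 * (K n).indicator (lmax (l n) (u (σ n))) z)) = _
    rw [Set.indicator_of_mem hz, h3, one_div, inv_mul_eq_div]
    rfl) cΦ ev Φ0
  rw [hμ, hκ, lintegral_map c2 measurable_snd, lintegral_map c1 measurable_fst] at h
  simp only [one_div, inv_mul_eq_div] at h
  exact h

end

end Pool.Agent.Results.MP_6b977f_mp.LocalMaxima
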