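import Pool.Agent.X127.PB.Lim
import Pool.Agent.Results.MP_6b977f_mp.ValueDistribution

/-!
# Sign balance of the eigenfunctions of planar domains (MP_6b977f_mp)

`Ω ⊆ ℂ` is an open set, `u` is a real function with `Δu + λu = 0` in `Ω`; no boundary condition and
no regularity of the boundary is used. `lapl f = ∂x² f + ∂y² f` is the definition of the file
`AbsoluteContinuity` of MP_a52643_an, `IsWeakLimit` is the definition of the file
`ValueDistribution` of this problem.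
-/

set_option autoImplicit false
open MeasureTheory Filter Topology
open scoped ContDiff ENNReal

namespace Pool.Agent.Results.MP_6b977f_mp.SignBalance

noncomputable section

open Pool.Agent.Results.MP_a52643_an.AbsoluteContinuity (lapl)
open Pool.Agent.Results.MP_6b977f_mp.ValueDistribution (IsWeakLimit)

/-- the points of `Ω` whose closed disc of radius `3.83 / √λ` lies in `Ω` -/
def interiorPart (Ω : Set ℂ) (lam : ℝ) : Set ℂ :=
  {z | Metric.closedBall z (383 / 100 / √lam) ⊆ Ω}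

lemma refl_conv {Φ : ℝ → ℝ} (h : ConvexOn ℝ Set.univ Φ) :
    ConvexOn ℝ Set.univ fun x => Φ (-x) := by
  refine ⟨convex_univ, fun x _ y _ p q hp hq hpq => ?_⟩
  have := h.2 (Set.mem_univ (-x)) (Set.mem_univ (-y)) hp hq hpq
  simp only [smul_eq_mul] at this ⊢
  rw [show -(p * x + q * y) = p * -x + q * -y by ring]
  exact this

/-- **Sign balance.** (1) For every solution of `Δu + λu = 0`, `λ > 0`, in an open set `Ω` of the
plane and every convex `Φ ≥ 0`, the integral of `Φ(±(2/5) u)` over the part of `Ω` at distance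
more than `3.83/√λ` from the boundary is at most the integral of `Φ(∓u)` over `Ω`. (2) Every weak
limit `ν` of the laws of eigenfunctions of a domain of finite area, as `λ → ∞`, satisfies
`∫ Φ(±(2/5) x) dν ≤ ∫ Φ(∓x) dν`. -/
theorem result :
    (∀ (Ω : Set ℂ) (lam : ℝ) (u : ℂ → ℝ), IsOpen Ω → 0 < lam → ContDiffOn ℝ ∞ u Ω →
      (∀ z ∈ Ω, lapl u z + lam * u z = 0) → ∀ Φ : ℝ → ℝ, ConvexOn ℝ Set.univ Φ →
      (∀ x, 0 ≤ Φ x) →
        ∫⁻ z in interiorPart Ω lam, ENNReal.ofReal (Φ (2 / 5 * u z)) ≤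
            ∫⁻ z in Ω, ENNReal.ofReal (Φ (-u z)) ∧
        ∫⁻ z in interiorPart Ω lam, ENNReal.ofReal (Φ (-(2 / 5 * u z))) ≤
            ∫⁻ z in Ω, ENNReal.ofReal (Φ (u z))) ∧
    ∀ (Ω : Set ℂ) (lam : ℕ → ℝ) (u : ℕ → ℂ → ℝ), IsOpen Ω → Ω.Nonempty → volume Ω ≠ ⊤ →
      Tendsto lam atTop atTop → (∀ n, ContDiffOn ℝ ∞ (u n) Ω) →
      (∀ n, ∀ z ∈ Ω, lapl (u n) z + lam n * u n z = 0) →
      (∀ n, IntegrableOn (fun z => u n z ^ 2) Ω volume) →
      (∀ n, ∫ z in Ω, u n z ^ 2 = (volume Ω).toReal) →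
      ∀ ν : Measure ℝ, IsProbabilityMeasure ν → IsWeakLimit Ω u ν →
      ∀ Φ : ℝ → ℝ, ConvexOn ℝ Set.univ Φ → (∀ x, 0 ≤ Φ x) →
        ∫⁻ x, ENNReal.ofReal (Φ (2 / 5 * x)) ∂ν ≤ ∫⁻ x, ENNReal.ofReal (Φ (-x)) ∂ν ∧
        ∫⁻ x, ENNReal.ofReal (Φ (-(2 / 5 * x))) ∂ν ≤ ∫⁻ x, ENNReal.ofReal (Φ x) ∂ν := by
  refine ⟨fun Ω lam u hΩ hl su he Φ cΦ Φ0 => ⟨?_, ?_⟩,
    fun Ω lam u hΩ hne hfin hl su he hi hn ν hν hw Φ cΦ Φ0 => ?_⟩
  · exact Pool.Agent.X127.PB.exact hΩ hl su he cΦ Φ0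
  · have h := Pool.Agent.X127.PB.exact hΩ hl su he (refl_conv cΦ) fun x => Φ0 _
    simp only [neg_neg] at h
    exact h
  · have V0 : 0 < (volume Ω).toReal :=
      ENNReal.toReal_pos (hΩ.measure_pos volume hne).ne' hfin
    have H : Pool.Agent.X127.PB.Hy Ω lam u :=
      ⟨hΩ, hfin, V0, hl, su, he, hi, fun n => (hn n).le⟩
    obtain ⟨σ, hσ, hg⟩ := hw
    refine ⟨Pool.Agent.X127.PB.lim H hσ hg cΦ Φ0, ?_⟩
    have h := Pool.Agent.X127.PB.lim H hσ hg (refl_conv cΦ) fun x => Φ0 _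
    simp only [neg_neg] at h
    exact h

end

end Pool.Agent.Results.MP_6b977f_mp.SignBalance
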